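import Mathlib

set_option autoImplicit false
set_option linter.all false

open MeasureTheory Filter Topology Set

namespace Pool.Agent.D0H27.OR

variable {X : Type*} [MeasurableSpace X] {μ : Measure X} [IsProbabilityMeasure μ] {T : X → X}

/-- Mixing, with real-valued measures. -/
def Mix (μ : Measure X) (T : X → X) : Prop :=
  ∀ A B : Set X, MeasurableSet A → MeasurableSet B →
    Tendsto (fun n : ℕ => μ.real (A ∩ T^[n] ⁻¹' B)) atTop (𝓝 (μ.real A * μ.real B))

lemma real_preimage (hT : MeasurePreserving T μ μ) {A : Set X} (hA : MeasurableSet A) (n : ℕ) :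
    μ.real (T^[n] ⁻¹' A) = μ.real A := by
  have h := (hT.iterate n).measure_preimage hA.nullMeasurableSet
  simp only [Measure.real, h]

lemma meas_pre (hT : MeasurePreserving T μ μ) {A : Set X} (hA : MeasurableSet A) (n : ℕ) :
    MeasurableSet (T^[n] ⁻¹' A) := (hT.iterate n).measurable hA

lemma pre_pre (A : Set X) (i j : ℕ) : T^[i] ⁻¹' (T^[j] ⁻¹' A) = T^[j + i] ⁻¹' A := by
  ext x
  simp only [mem_preimage, Function.iterate_add_apply]

/-- Small sets of positive measure. -/
lemma small_sets (hM : Mix μ T) (h : ∃ A : Set X, MeasurableSet A ∧ 0 < μ.real A ∧ μ.real A < 1)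
    (hT : MeasurePreserving T μ μ) {ε : ℝ} (hε : 0 < ε) :
    ∃ B : Set X, MeasurableSet B ∧ 0 < μ.real B ∧ μ.real B < ε := by
  obtain ⟨B, hB, hB0, hB1⟩ := h
  set b := μ.real B with hb
  have key : ∀ j : ℕ, ∃ C : Set X, MeasurableSet C ∧ 0 < μ.real C ∧ μ.real C ≤ ((1 + b) / 2) ^ j := by
    intro j
    induction j with
    | zero => exact ⟨B, hB, hB0, by simpa using hB1.le⟩
    | succ j ih =>
      obtain ⟨C, hC, hC0, hC1⟩ := ih
      have ht := hM C B hC hB
      have h1 : ∀ᶠ n in atTop, 0 < μ.real (C ∩ T^[n] ⁻¹' B) :=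
        ht.eventually (lt_mem_nhds (mul_pos hC0 hB0))
      have h2 : ∀ᶠ n in atTop, μ.real (C ∩ T^[n] ⁻¹' B) < μ.real C * ((1 + b) / 2) := by
        refine ht.eventually (gt_mem_nhds ?_)
        apply mul_lt_mul_of_pos_left _ hC0
        linarith
      obtain ⟨n, hn1, hn2⟩ := (h1.and h2).exists
      refine ⟨_, hC.inter (meas_pre hT hB n), hn1, hn2.le.trans ?_⟩
      rw [pow_succ]
      exact mul_le_mul_of_nonneg_right hC1 (by linarith)
  obtain ⟨j, hj⟩ := exists_pow_lt_of_lt_one hε (by linarith : (1 + b) / 2 < 1)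
  obtain ⟨C, hC, hC0, hC1⟩ := key j
  exact ⟨C, hC, hC0, hC1.trans_lt hj⟩

/-- The union of the first `k` preimages. -/
def U (T : X → X) (B : Set X) (k : ℕ) : Set X := ⋃ j ∈ Finset.range k, T^[j] ⁻¹' B

lemma mem_U {B : Set X} {k : ℕ} {x : X} : x ∈ U T B k ↔ ∃ j < k, T^[j] x ∈ B := by
  simp [U]

lemma meas_U (hT : MeasurePreserving T μ μ) {B : Set X} (hB : MeasurableSet B) (k : ℕ) :
    MeasurableSet (U T B k) :=
  Finset.measurableSet_biUnion _ fun j _ => meas_pre hT hB j

lemma U_mono (B : Set X) : Monotone (U T B) := by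
  intro k l hkl x hx
  rw [mem_U] at hx ⊢
  obtain ⟨j, hj, h⟩ := hx
  exact ⟨j, hj.trans_le hkl, h⟩

lemma U_tendsto (hM : Mix μ T) (hT : MeasurePreserving T μ μ) {B : Set X} (hB : MeasurableSet B)
    (hB0 : 0 < μ.real B) : Tendsto (fun k => μ.real (U T B k)) atTop (𝓝 1) := by
  set V : Set X := ⋃ k, U T B k with hV
  have hVm : MeasurableSet V := MeasurableSet.iUnion fun k => meas_U hT hB k
  have h1 : Tendsto (fun k => μ.real (U T B k)) atTop (𝓝 (μ.real V)) := by
    have := tendsto_measure_iUnion_atTop (μ := μ) (U_mono (T := T) B)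
    exact (ENNReal.tendsto_toReal (measure_ne_top μ _)).comp this
  have hsub : ∀ n, T^[n] ⁻¹' V ⊆ V := by
    intro n x hx
    simp only [hV, mem_preimage, mem_iUnion, mem_U] at hx ⊢
    obtain ⟨k, j, hj, h⟩ := hx
    refine ⟨j + n + 1, j + n, Nat.lt_succ_self _, ?_⟩
    rwa [Function.iterate_add_apply]
  have h2 : Tendsto (fun n : ℕ => μ.real V) atTop (𝓝 (μ.real V * μ.real V)) := by
    refine (hM V V hVm hVm).congr fun n => ?_
    rw [inter_eq_self_of_subset_right (hsub n), real_preimage hT hVm]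
  have h3 : μ.real V = μ.real V * μ.real V := tendsto_nhds_unique tendsto_const_nhds h2
  have h4 : 0 < μ.real V := by
    refine hB0.trans_le (measureReal_mono ?_ (measure_ne_top _ _))
    intro x hx
    simp only [hV, mem_iUnion, mem_U]
    exact ⟨1, 0, by norm_num, by simpa using hx⟩
  have h5 : μ.real V = 1 := by
    have := mul_left_cancel₀ h4.ne' (show μ.real V * μ.real V = μ.real V * 1 by linarith)
    exact this
  rwa [h5] at h1

/-- Nearly invariant sets of prescribed measure. -/
lemma nearly_invariant (hM : Mix μ T)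
    (h : ∃ A : Set X, MeasurableSet A ∧ 0 < μ.real A ∧ μ.real A < 1)
    (hT : MeasurePreserving T μ μ) (a : ℝ) (ha0 : 0 < a) (ha1 : a < 1) (η : ℝ) (hη : 0 < η)
    (K : ℕ) :
    ∃ A : Set X, MeasurableSet A ∧ |μ.real A - a| ≤ η ∧
      ∀ i ≤ K, μ.real (symmDiff A (T^[i] ⁻¹' A)) ≤ η := by
  obtain ⟨B, hB, hB0, hB1⟩ := small_sets hM h hT (ε := η / (2 * K + 2)) (by positivity)
  have hK : (0 : ℝ) < 2 * K + 2 := by positivity
  have hbη : μ.real B ≤ η := by
    refine hB1.le.trans (div_le_self hη.le ?_)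
    have : (0 : ℝ) ≤ K := Nat.cast_nonneg K
    linarith
  have ht := U_tendsto hM hT hB hB0
  have hex : ∃ k, a ≤ μ.real (U T B k) := by
    obtain ⟨k, hk⟩ := (ht.eventually (lt_mem_nhds ha1)).exists
    exact ⟨k, hk.le⟩
  classical
  set k := Nat.find hex with hk
  have hk1 : a ≤ μ.real (U T B k) := Nat.find_spec hex
  have hk0 : k ≠ 0 := by
    intro h0
    rw [h0] at hk1
    simp [U] at hk1
    linarith
  obtain ⟨l, hl⟩ := Nat.exists_eq_succ_of_ne_zero hk0
  have hk2 : μ.real (U T B l) < a := by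
    have := Nat.find_min hex (m := l) (by rw [← hk, hl]; exact Nat.lt_succ_self l)
    push Not at this
    exact this
  have hk3 : μ.real (U T B k) ≤ μ.real (U T B l) + μ.real B := by
    have : U T B k ⊆ U T B l ∪ T^[l] ⁻¹' B := by
      intro x hx
      rw [mem_U] at hx
      obtain ⟨j, hj, h⟩ := hx
      rw [hl] at hj
      rcases Nat.lt_succ_iff_lt_or_eq.1 hj with h' | h'
      · exact Or.inl (mem_U.2 ⟨j, h', h⟩)
      · subst h'; exact Or.inr h
    refine (measureReal_mono this (measure_ne_top _ _)).trans ((measureReal_union_le _ _).trans ?_)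
    rw [real_preimage hT hB]
  have hAm := meas_U hT hB k
  refine ⟨U T B k, hAm, ?_, ?_⟩
  · rw [abs_le]
    constructor <;> linarith
  · -- symmetric differences
    have h1 : μ.real (symmDiff (U T B k) (T^[1] ⁻¹' U T B k)) ≤ 2 * μ.real B := by
      have hsub : symmDiff (U T B k) (T^[1] ⁻¹' U T B k) ⊆ B ∪ T^[k] ⁻¹' B := by
        intro x hx
        rcases hx with ⟨h1, h2⟩ | ⟨h1, h2⟩
        · rw [mem_U] at h1
          obtain ⟨j, hj, h⟩ := h1
          rcases Nat.eq_zero_or_pos j with h0 | h0
          · subst h0; exact Or.inl (by simpa using h)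
          · exfalso
            apply h2
            rw [mem_preimage, mem_U]
            refine ⟨j - 1, by omega, ?_⟩
            rw [← Function.iterate_add_apply]
            rwa [show j - 1 + 1 = j by omega]
        · rw [mem_preimage, mem_U] at h1
          obtain ⟨j, hj, h⟩ := h1
          rw [← Function.iterate_add_apply] at h
          by_cases hjk : j + 1 < k
          · exact absurd (mem_U.2 ⟨j + 1, hjk, h⟩) h2
          · have : j + 1 = k := by omega
            rw [this] at h
            exact Or.inr h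
      refine (measureReal_mono hsub (measure_ne_top _ _)).trans ((measureReal_union_le _ _).trans ?_)
      rw [real_preimage hT hB]
      linarith
    have h2 : ∀ i : ℕ, μ.real (symmDiff (U T B k) (T^[i] ⁻¹' U T B k)) ≤ i * (2 * μ.real B) := by
      intro i
      induction i with
      | zero => simp
      | succ i ih =>
        have hsub : symmDiff (U T B k) (T^[i + 1] ⁻¹' U T B k) ⊆
            symmDiff (U T B k) (T^[i] ⁻¹' U T B k) ∪
              T^[i] ⁻¹' (symmDiff (U T B k) (T^[1] ⁻¹' U T B k)) := by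
          have e : T^[i] ⁻¹' (symmDiff (U T B k) (T^[1] ⁻¹' U T B k)) =
              symmDiff (T^[i] ⁻¹' U T B k) (T^[i + 1] ⁻¹' U T B k) := by
            rw [preimage_symmDiff, pre_pre, add_comm 1 i]
          rw [e]
          exact symmDiff_triangle _ _ _
        refine (measureReal_mono hsub (measure_ne_top _ _)).trans
          ((measureReal_union_le _ _).trans ?_)
        rw [real_preimage hT (hAm.symmDiff (meas_pre hT hAm 1))]
        push_cast
        linarith
    intro i hi
    refine (h2 i).trans ?_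
    have hi' : (i : ℝ) ≤ K := by exact_mod_cast hi
    have h3 : μ.real B * (2 * K + 2) ≤ η := by
      have := (lt_div_iff₀ hK).1 hB1
      linarith
    have h0 : 0 ≤ μ.real B := hB0.le
    nlinarith

end Pool.Agent.D0H27.OR
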