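import Pool.Agent.D0H27.OR.Quasi

set_option autoImplicit false
set_option linter.all false

open MeasureTheory Filter Topology Set

namespace Pool.Agent.D0H27.OR

variable {X : Type*} [MeasurableSpace X] {μ : Measure X} [IsProbabilityMeasure μ] {T : X → X}

/-- Numerical facts for the step. -/
lemma numeric {g g' θ α a e : ℝ} (ha0 : 0 < a) (ha1 : a ≤ 1 / 256) (he : e = a / 1000)
    (hg0 : 1 / 2 ≤ g) (hg1 : g ≤ 1) (hα1 : α ≤ a + e) (hα2 : a - e ≤ α)
    (hg'1 : g' ≤ g * (1 - α) + e) (hg'0 : 0 ≤ g') :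
    ((1 - a / 4) * g ^ 2 ≤ θ → g' ^ 2 ≤ θ * (1 - α) - 2 * e) ∧
    ((1 - a / 32) * g ^ 2 ≤ θ → (1 - a / 16) * g' ^ 2 ≤ θ * (1 - 2 * α) - 2 * e) := by
  subst he
  have hα3 : α ≤ 1 / 200 := by linarith
  have hα0 : 0 ≤ α := by linarith
  have h1 : g' ^ 2 ≤ (g * (1 - α) + a / 1000) ^ 2 := pow_le_pow_left₀ hg'0 hg'1 2
  have h2 : 0 ≤ g * (1 - α) := mul_nonneg (by linarith) (by linarith)
  have h3 : g * (1 - α) ≤ 1 := by nlinarith
  have h4 : (g * (1 - α) + a / 1000) ^ 2 ≤ g ^ 2 * (1 - α) ^ 2 + 3 * (a / 1000) := by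
    have h5 : (g * (1 - α) + a / 1000) ^ 2 =
      g ^ 2 * (1 - α) ^ 2 + 2 * (a / 1000) * (g * (1 - α)) + (a / 1000) ^ 2 := by ring
    rw [h5]
    have h6 : 2 * (a / 1000) * (g * (1 - α)) ≤ 2 * (a / 1000) * 1 :=
      mul_le_mul_of_nonneg_left h3 (by positivity)
    have h7 : (a / 1000) ^ 2 ≤ a / 1000 := by nlinarith
    linarith
  have hgg : 1 / 4 ≤ g ^ 2 := by nlinarith
  have hgg1 : g ^ 2 ≤ 1 := by nlinarith
  constructor
  · intro hθ
    have h5 : (1 - a / 4) * g ^ 2 * (1 - α) ≤ θ * (1 - α) :=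
      mul_le_mul_of_nonneg_right hθ (by linarith)
    have h6 : a / 2 ≤ α - a / 4 := by linarith
    have h7 : 1 / 4 * (1 / 2) * (a / 2) ≤ g ^ 2 * (1 - α) * (α - a / 4) := by
      apply mul_le_mul _ h6 (by positivity) (mul_nonneg (by positivity) (by linarith))
      apply mul_le_mul hgg (by linarith) (by norm_num) (by positivity)
    have h8 : (1 - a / 4) * g ^ 2 * (1 - α) - g ^ 2 * (1 - α) ^ 2 =
      g ^ 2 * (1 - α) * (α - a / 4) := by ring
    linarith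
  · intro hθ
    have h5 : (1 - a / 32) * g ^ 2 * (1 - 2 * α) ≤ θ * (1 - 2 * α) :=
      mul_le_mul_of_nonneg_right hθ (by linarith)
    have h6 : (1 - a / 16) * g' ^ 2 ≤ (1 - a / 16) * (g ^ 2 * (1 - α) ^ 2) + 3 * (a / 1000) := by
      have h7 : (1 - a / 16) * g' ^ 2 ≤ (1 - a / 16) * (g ^ 2 * (1 - α) ^ 2 + 3 * (a / 1000)) :=
        mul_le_mul_of_nonneg_left (h1.trans h4) (by linarith)
      have h8 : (1 - a / 16) * (3 * (a / 1000)) ≤ 3 * (a / 1000) := by nlinarith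
      nlinarith
    have h9 : (1 - a / 32) * g ^ 2 * (1 - 2 * α) - (1 - a / 16) * (g ^ 2 * (1 - α) ^ 2) =
      g ^ 2 * ((a / 32) * (1 - 2 * α) - (1 - a / 16) * α ^ 2) := by ring
    have h10 : α ^ 2 ≤ a / 240 := by nlinarith
    have h11 : a / 40 ≤ (a / 32) * (1 - 2 * α) - (1 - a / 16) * α ^ 2 := by
      have h12 : (1 - a / 16) * α ^ 2 ≤ α ^ 2 := by nlinarith [sq_nonneg α]
      have h13 : a / 32 * (99 / 100) ≤ a / 32 * (1 - 2 * α) :=
        mul_le_mul_of_nonneg_left (by linarith) (by positivity)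
      linarith
    have h14 : 1 / 4 * (a / 40) ≤ g ^ 2 * ((a / 32) * (1 - 2 * α) - (1 - a / 16) * α ^ 2) :=
      mul_le_mul hgg h11 (by positivity) (by positivity)
    linarith

/-- The induction step. -/
lemma step (hM : Mix μ T) (hnt : ∃ A : Set X, MeasurableSet A ∧ 0 < μ.real A ∧ μ.real A < 1)
    (hT : MeasurePreserving T μ μ) {E : Set X} (hE : MeasurableSet E) {a : ℝ} (ha0 : 0 < a)
    (ha1 : a ≤ 1 / 64) (hg : 1 / 2 + a ≤ μ.real E)
    (hθ : ∀ n, 1 ≤ n → (1 - a / 16) * μ.real E ^ 2 ≤ μ.real (E ∩ T^[n] ⁻¹' E)) (L : ℕ) :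
    ∃ E' : Set X, MeasurableSet E' ∧ E' ⊆ E ∧ 1 / 2 + a / 4 ≤ μ.real E' ∧ μ.real E' < 1 ∧
      (∀ n, 1 ≤ n → (1 - (a / 4) / 16) * μ.real E' ^ 2 ≤ μ.real (E' ∩ T^[n] ⁻¹' E')) ∧
      (∀ n, 1 ≤ n → n ≤ L → μ.real E' ^ 2 ≤ μ.real (E' ∩ T^[n] ⁻¹' E')) := by
  set b := a / 4 with hb
  set e := b / 1000 with he
  have hb0 : 0 < b := by positivity
  have he0 : 0 < e := by positivity
  have hg1 : μ.real E ≤ 1 := measureReal_le_one
  have hFm : ∀ n : ℕ, MeasurableSet (E ∩ T^[n] ⁻¹' E) := fun n => hE.inter (meas_pre hT hE n)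
  -- the time after which `E` is mixed
  obtain ⟨L₁, hL₁⟩ : ∃ L₁ : ℕ, ∀ n, L₁ ≤ n →
      (1 - b / 32) * μ.real E ^ 2 ≤ μ.real (E ∩ T^[n] ⁻¹' E) := by
    have h1 : (1 - b / 32) * μ.real E ^ 2 < μ.real E * μ.real E := by
      have : 0 < μ.real E := by linarith
      nlinarith [mul_pos hb0 (mul_pos this this)]
    obtain ⟨L₁, h⟩ := eventually_atTop.1 ((hM E E hE hE).eventually (lt_mem_nhds h1))
    exact ⟨L₁, fun n hn => (h n hn).le⟩
  obtain ⟨K, hK⟩ := uniform_variance hM hT hE (ε := e / 2) (by positivity)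
  obtain ⟨A, hA, hAa, hAinv⟩ := nearly_invariant hM hnt hT b hb0 (by rw [hb]; linarith)
    (e / 2) (by positivity) (max K (max L L₁))
  set α := μ.real A with hα
  have hα' := abs_le.1 hAa
  -- quasi-independence
  have q1 : ∀ n, |μ.real ((E ∩ T^[n] ⁻¹' E) ∩ A) - α * μ.real (E ∩ T^[n] ⁻¹' E)| ≤ e := by
    intro n
    obtain ⟨m, hm0, hmK, hW⟩ := hK n
    have := nearly_indep hT (hFm n) hm0 (by positivity) hW hA (η := e / 2)
      (fun i hi => hAinv i (hi.trans (hmK.trans (le_max_left _ _))))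
    linarith
  have q2 : ∀ n, |μ.real ((E ∩ T^[n] ⁻¹' E) ∩ T^[n] ⁻¹' A) - α * μ.real (E ∩ T^[n] ⁻¹' E)| ≤ e := by
    intro n
    obtain ⟨m, hm0, hmK, hW⟩ := hK n
    have := nearly_indep hT (hFm n) hm0 (by positivity) hW (meas_pre hT hA n) (η := e / 2) (by
      intro i hi
      have e1 : symmDiff (T^[n] ⁻¹' A) (T^[i] ⁻¹' (T^[n] ⁻¹' A)) =
          T^[n] ⁻¹' (symmDiff A (T^[i] ⁻¹' A)) := by
        rw [preimage_symmDiff, pre_pre, pre_pre, add_comm]
      rw [e1, real_preimage hT (hA.symmDiff (meas_pre hT hA i))]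
      exact hAinv i (hi.trans (hmK.trans (le_max_left _ _))))
    rw [real_preimage hT hA] at this
    linarith
  have q0 : |μ.real (E ∩ A) - α * μ.real E| ≤ e := by
    have h := q1 0
    have e0 : E ∩ T^[0] ⁻¹' E = E := by simp
    rwa [e0] at h
  have q0' := abs_le.1 q0
  have hE'm : MeasurableSet (E \ A) := hE.diff hA
  have hg' : μ.real (E \ A) = μ.real E - μ.real (E ∩ A) := by
    have := measureReal_inter_add_diff (μ := μ) (s := E) hA
    linarith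
  have hset : ∀ n, (E \ A) ∩ T^[n] ⁻¹' (E \ A) =
      (E ∩ T^[n] ⁻¹' E) \ (A ∪ T^[n] ⁻¹' A) := by
    intro n
    ext x
    simp only [mem_inter_iff, mem_diff, mem_preimage, mem_union]
    tauto
  have hθ' : ∀ n, μ.real ((E \ A) ∩ T^[n] ⁻¹' (E \ A)) =
      μ.real (E ∩ T^[n] ⁻¹' E) - μ.real ((E ∩ T^[n] ⁻¹' E) ∩ (A ∪ T^[n] ⁻¹' A)) := by
    intro n
    rw [hset]
    have := measureReal_inter_add_diff (μ := μ) (s := E ∩ T^[n] ⁻¹' E) (hA.union (meas_pre hT hA n))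
    linarith
  have l1 : ∀ n, μ.real ((E ∩ T^[n] ⁻¹' E)) * (1 - 2 * α) - 2 * e ≤
      μ.real ((E \ A) ∩ T^[n] ⁻¹' (E \ A)) := by
    intro n
    rw [hθ', inter_union_distrib_left]
    have h1 := measureReal_union_le (μ := μ) ((E ∩ T^[n] ⁻¹' E) ∩ A) ((E ∩ T^[n] ⁻¹' E) ∩ T^[n] ⁻¹' A)
    have h2 := (abs_le.1 (q1 n)).2
    have h3 := (abs_le.1 (q2 n)).2
    linarith
  have l2 : ∀ n, n ≤ max L L₁ → μ.real ((E ∩ T^[n] ⁻¹' E)) * (1 - α) - 2 * e ≤
      μ.real ((E \ A) ∩ T^[n] ⁻¹' (E \ A)) := by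
    intro n hn
    rw [hθ']
    have h0 : (E ∩ T^[n] ⁻¹' E) ∩ (A ∪ T^[n] ⁻¹' A) ⊆
        ((E ∩ T^[n] ⁻¹' E) ∩ A) ∪ symmDiff A (T^[n] ⁻¹' A) := by
      rintro x ⟨hx1, hx2⟩
      by_cases hx : x ∈ A
      · exact Or.inl ⟨hx1, hx⟩
      · rcases hx2 with h | h
        · exact absurd h hx
        · exact Or.inr (Or.inr ⟨h, hx⟩)
    have h1 := (measureReal_mono h0 (measure_ne_top μ _)).trans (measureReal_union_le _ _)
    have h2 := (abs_le.1 (q1 n)).2
    have h3 := hAinv n (hn.trans (le_max_right _ _))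
    linarith
  have hαhi : α ≤ b + e := by linarith
  have hαlo : b - e ≤ α := by linarith
  have hgub : μ.real (E \ A) ≤ μ.real E * (1 - α) + e := by rw [hg']; linarith
  have hnum := fun θ : ℝ => numeric (θ := θ) hb0 (by rw [hb]; linarith) he (by linarith) hg1 hαhi hαlo
    hgub measureReal_nonneg
  have m2 : ∀ n, 1 ≤ n → n ≤ max L L₁ →
      μ.real (E \ A) ^ 2 ≤ μ.real ((E \ A) ∩ T^[n] ⁻¹' (E \ A)) := by
    intro n hn1 hn2
    refine ((hnum _).1 ?_).trans (l2 n hn2)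
    have := hθ n hn1
    rw [hb]
    convert this using 2
    ring
  refine ⟨E \ A, hE'm, diff_subset, ?_, ?_, ?_, fun n hn1 hn2 => m2 n hn1 (hn2.trans (le_max_left _ _))⟩
  · -- lower bound
    rw [hg']
    have h1 : α * μ.real E ≤ α := by
      have : 0 ≤ α := measureReal_nonneg
      nlinarith
    have h2 : a = 4 * b := by rw [hb]; ring
    linarith
  · have h1 : μ.real E * (1 - α) ≤ 1 - α := by
      have : 0 ≤ 1 - α := by
        have : α ≤ 1 := measureReal_le_one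
        linarith
      nlinarith
    linarith
  · intro n hn
    by_cases hnL : n ≤ max L L₁
    · refine le_trans ?_ (m2 n hn hnL)
      have : 0 ≤ μ.real (E \ A) ^ 2 := sq_nonneg _
      nlinarith
    · refine ((hnum _).2 ?_).trans (l1 n)
      exact hL₁ n ((le_max_right _ _).trans (not_le.1 hnL).le)

/-- The property of the sets of the construction. -/
def P (μ : Measure X) (T : X → X) (a : ℝ) (E : Set X) : Prop :=
  MeasurableSet E ∧ 1 / 2 + a ≤ μ.real E ∧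
    ∀ n, 1 ≤ n → (1 - a / 16) * μ.real E ^ 2 ≤ μ.real (E ∩ T^[n] ⁻¹' E)

/-- **Every nontrivial mixing system has an over-recurrent set.** -/
theorem exists_overRecurrent (hM : Mix μ T)
    (hnt : ∃ A : Set X, MeasurableSet A ∧ 0 < μ.real A ∧ μ.real A < 1)
    (hT : MeasurePreserving T μ μ) :
    ∃ A : Set X, MeasurableSet A ∧ 0 < μ.real A ∧ μ.real A < 1 ∧
      ∀ n : ℕ, 1 ≤ n → μ.real A ^ 2 ≤ μ.real (A ∩ T^[n] ⁻¹' A) := by
  let a : ℕ → ℝ := fun k => (1 / 64) * (1 / 4) ^ k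
  have ha0 : ∀ k, 0 < a k := fun k => by positivity
  have ha1 : ∀ k, a k ≤ 1 / 64 := by
    intro k
    have : ((1 : ℝ) / 4) ^ k ≤ 1 := pow_le_one₀ (by norm_num) (by norm_num)
    show 1 / 64 * (1 / 4) ^ k ≤ 1 / 64
    linarith
  have has : ∀ k, a (k + 1) = a k / 4 := by
    intro k
    show (1 / 64 : ℝ) * (1 / 4) ^ (k + 1) = 1 / 64 * (1 / 4) ^ k / 4
    rw [pow_succ]; ring
  have hstep : ∀ k : ℕ, ∀ E : {E : Set X // P μ T (a k) E}, ∃ E' : {E : Set X // P μ T (a (k + 1)) E},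
      E'.1 ⊆ E.1 ∧ μ.real E'.1 < 1 ∧
      ∀ n, 1 ≤ n → n ≤ k → μ.real E'.1 ^ 2 ≤ μ.real (E'.1 ∩ T^[n] ⁻¹' E'.1) := by
    rintro k ⟨E, hE1, hE2, hE3⟩
    obtain ⟨E', h1, h2, h3, h4, h5, h6⟩ := step hM hnt hT hE1 (ha0 k) (ha1 k) hE2 hE3 k
    refine ⟨⟨E', h1, ?_, ?_⟩, h2, h4, h6⟩
    · rw [has]; exact h3
    · rw [has]; exact h5
  choose f hf1 hf2 hf3 using hstep
  have hinit : P μ T (a 0) univ := by
    refine ⟨MeasurableSet.univ, ?_, fun n _ => ?_⟩
    · have := ha1 0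
      rw [probReal_univ]; linarith
    · rw [preimage_univ, inter_univ, probReal_univ]
      have := ha0 0
      linarith
  let s : ∀ k : ℕ, {E : Set X // P μ T (a k) E} := fun k =>
    Nat.rec (motive := fun k => {E : Set X // P μ T (a k) E}) ⟨univ, hinit⟩ (fun k E => f k E) k
  have hs : ∀ k, s (k + 1) = f k (s k) := fun k => rfl
  have hanti : Antitone fun k => (s k).1 := antitone_nat_of_succ_le fun k => by
    rw [hs]; exact hf1 k (s k)
  have hm : ∀ k, MeasurableSet (s k).1 := fun k => (s k).2.1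
  set A : Set X := ⋂ k, (s k).1 with hA
  have hAm : MeasurableSet A := MeasurableSet.iInter hm
  have hlim : Tendsto (fun k => μ.real (s k).1) atTop (𝓝 (μ.real A)) := by
    have := tendsto_measure_iInter_atTop (μ := μ) (fun k => (hm k).nullMeasurableSet) hanti
      ⟨0, measure_ne_top _ _⟩
    exact (ENNReal.tendsto_toReal (measure_ne_top μ _)).comp this
  have hlim2 : ∀ n, Tendsto (fun k => μ.real ((s k).1 ∩ T^[n] ⁻¹' (s k).1)) atTop
      (𝓝 (μ.real (A ∩ T^[n] ⁻¹' A))) := by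
    intro n
    have hanti2 : Antitone fun k => (s k).1 ∩ T^[n] ⁻¹' (s k).1 := fun i j hij =>
      inter_subset_inter (hanti hij) (preimage_mono (hanti hij))
    have := tendsto_measure_iInter_atTop (μ := μ)
      (fun k => ((hm k).inter (meas_pre hT (hm k) n)).nullMeasurableSet) hanti2
      ⟨0, measure_ne_top _ _⟩
    have e : ⋂ k, ((s k).1 ∩ T^[n] ⁻¹' (s k).1) = A ∩ T^[n] ⁻¹' A := by
      rw [hA, preimage_iInter, iInter_inter_distrib]
    rw [e] at this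
    exact (ENNReal.tendsto_toReal (measure_ne_top μ _)).comp this
  refine ⟨A, hAm, ?_, ?_, ?_⟩
  · have : (1 : ℝ) / 2 ≤ μ.real A := by
      refine ge_of_tendsto hlim (Eventually.of_forall fun k => ?_)
      have h1 := (s k).2.2.1
      have h2 := ha0 k
      linarith
    linarith
  · have h1 : A ⊆ (s 1).1 := iInter_subset _ 1
    refine (measureReal_mono h1 (measure_ne_top _ _)).trans_lt ?_
    have h2 := hf2 0 (s 0)
    rwa [← hs] at h2
  · intro n hn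
    refine le_of_tendsto_of_tendsto (hlim.pow 2) (hlim2 n) ?_
    filter_upwards [eventually_ge_atTop (n + 1)] with k hk
    obtain ⟨l, rfl⟩ : ∃ l, k = l + 1 := ⟨k - 1, by omega⟩
    have h3 := hf3 l (s l) n hn (by omega)
    rw [← hs] at h3
    exact h3

end Pool.Agent.D0H27.OR
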