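import Pool.Agent.D0H27.OR.Basic

set_option autoImplicit false
set_option linter.all false

open MeasureTheory Filter Topology Set

namespace Pool.Agent.D0H27.OR

variable {X : Type*} [MeasurableSpace X] {μ : Measure X} [IsProbabilityMeasure μ] {T : X → X}

/-- The double sum of correlations. -/
noncomputable def W (μ : Measure X) (T : X → X) (F : Set X) (m : ℕ) : ℝ :=
  ∑ i ∈ Finset.range m, ∑ j ∈ Finset.range m,
    (μ.real (T^[i] ⁻¹' F ∩ T^[j] ⁻¹' F) - μ.real F ^ 2)

/-- The centred ergodic sum. -/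
noncomputable def hsum (μ : Measure X) (T : X → X) (F : Set X) (m : ℕ) (x : X) : ℝ :=
  ∑ i ∈ Finset.range m, ((T^[i] ⁻¹' F).indicator 1 x - μ.real F)

lemma integrable_ind {A : Set X} (hA : MeasurableSet A) :
    Integrable (A.indicator (1 : X → ℝ)) μ := (integrable_const (1 : ℝ)).indicator hA

lemma integral_ind {A : Set X} (hA : MeasurableSet A) :
    ∫ x, A.indicator (1 : X → ℝ) x ∂μ = μ.real A := integral_indicator_one hA

lemma hsum_meas (hT : MeasurePreserving T μ μ) {F : Set X} (hF : MeasurableSet F) (m : ℕ) :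
    Measurable (hsum μ T F m) := by
  unfold hsum
  exact Finset.measurable_sum _ fun i _ =>
    (measurable_one.indicator (meas_pre hT hF i)).sub_const _

lemma hsum_bdd (F : Set X) (m : ℕ) (x : X) : |hsum μ T F m x| ≤ m := by
  unfold hsum
  refine (Finset.abs_sum_le_sum_abs _ _).trans ?_
  have : ∀ i ∈ Finset.range m, |(T^[i] ⁻¹' F).indicator (1 : X → ℝ) x - μ.real F| ≤ 1 := by
    intro i _
    have h0 : 0 ≤ μ.real F := measureReal_nonneg
    have h1 : μ.real F ≤ 1 := measureReal_le_one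
    by_cases hx : x ∈ T^[i] ⁻¹' F
    · rw [indicator_of_mem hx, Pi.one_apply, abs_le]; constructor <;> linarith
    · rw [indicator_of_notMem hx, abs_le]; constructor <;> linarith
  refine (Finset.sum_le_sum this).trans ?_
  simp

lemma hsum_sq_integral (hT : MeasurePreserving T μ μ) {F : Set X} (hF : MeasurableSet F) (m : ℕ) :
    ∫ x, hsum μ T F m x ^ 2 ∂μ = W μ T F m := by
  have h1 : ∀ x, hsum μ T F m x ^ 2 = ∑ i ∈ Finset.range m, ∑ j ∈ Finset.range m,
      ((T^[i] ⁻¹' F).indicator (1 : X → ℝ) x - μ.real F) *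
        ((T^[j] ⁻¹' F).indicator (1 : X → ℝ) x - μ.real F) := by
    intro x
    rw [hsum, sq, Finset.sum_mul_sum]
  have hind : ∀ i j : ℕ, ∀ x, ((T^[i] ⁻¹' F).indicator (1 : X → ℝ) x - μ.real F) *
        ((T^[j] ⁻¹' F).indicator (1 : X → ℝ) x - μ.real F) =
      (T^[i] ⁻¹' F ∩ T^[j] ⁻¹' F).indicator (1 : X → ℝ) x
        - μ.real F * (T^[i] ⁻¹' F).indicator (1 : X → ℝ) x
        - μ.real F * (T^[j] ⁻¹' F).indicator (1 : X → ℝ) x + μ.real F ^ 2 := by
    intro i j x
    rw [inter_indicator_one]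
    simp only [Pi.mul_apply]
    ring
  have hint : ∀ i j : ℕ, Integrable (fun x => (T^[i] ⁻¹' F ∩ T^[j] ⁻¹' F).indicator (1 : X → ℝ) x
        - μ.real F * (T^[i] ⁻¹' F).indicator (1 : X → ℝ) x
        - μ.real F * (T^[j] ⁻¹' F).indicator (1 : X → ℝ) x + μ.real F ^ 2) μ := by
    intro i j
    exact (((integrable_ind ((meas_pre hT hF i).inter (meas_pre hT hF j))).sub
      ((integrable_ind (meas_pre hT hF i)).const_mul _)).sub
      ((integrable_ind (meas_pre hT hF j)).const_mul _)).add (integrable_const _)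
  have hval : ∀ i j : ℕ, ∫ x, ((T^[i] ⁻¹' F ∩ T^[j] ⁻¹' F).indicator (1 : X → ℝ) x
        - μ.real F * (T^[i] ⁻¹' F).indicator (1 : X → ℝ) x
        - μ.real F * (T^[j] ⁻¹' F).indicator (1 : X → ℝ) x + μ.real F ^ 2) ∂μ =
      μ.real (T^[i] ⁻¹' F ∩ T^[j] ⁻¹' F) - μ.real F ^ 2 := by
    intro i j
    rw [integral_add _ (integrable_const _), integral_sub, integral_sub, integral_const_mul,
      integral_const_mul, integral_ind ((meas_pre hT hF i).inter (meas_pre hT hF j)),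
      integral_ind (meas_pre hT hF i), integral_ind (meas_pre hT hF j), real_preimage hT hF,
      real_preimage hT hF]
    · simp
      ring
    · exact integrable_ind ((meas_pre hT hF i).inter (meas_pre hT hF j))
    · exact (integrable_ind (meas_pre hT hF i)).const_mul _
    · exact (integrable_ind ((meas_pre hT hF i).inter (meas_pre hT hF j))).sub
        ((integrable_ind (meas_pre hT hF i)).const_mul _)
    · exact (integrable_ind (meas_pre hT hF j)).const_mul _
    · exact ((integrable_ind ((meas_pre hT hF i).inter (meas_pre hT hF j))).sub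
        ((integrable_ind (meas_pre hT hF i)).const_mul _)).sub
        ((integrable_ind (meas_pre hT hF j)).const_mul _)
  simp only [h1, hind]
  rw [integral_finset_sum _ (fun i _ => integrable_finset_sum _ fun j _ => hint i j)]
  unfold W
  refine Finset.sum_congr rfl fun i _ => ?_
  rw [integral_finset_sum _ (fun j _ => hint i j)]
  exact Finset.sum_congr rfl fun j _ => hval i j

/-- A nearly invariant set is nearly independent of a set whose ergodic sums have small variance. -/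
lemma nearly_indep (hT : MeasurePreserving T μ μ) {F : Set X} (hF : MeasurableSet F) {m : ℕ}
    (hm : 0 < m) {ε : ℝ} (hε : 0 < ε) (hW : W μ T F m ≤ (m * ε) ^ 2) {A : Set X}
    (hA : MeasurableSet A) {η : ℝ} (hη : ∀ i ≤ m, μ.real (symmDiff A (T^[i] ⁻¹' A)) ≤ η) :
    |μ.real (F ∩ A) - μ.real A * μ.real F| ≤ η + ε := by
  have hm' : (0 : ℝ) < m := by exact_mod_cast hm
  have hH := hsum_meas hT hF m
  have hHint : Integrable (hsum μ T F m) μ :=
    Integrable.of_bound hH.aestronglyMeasurable m (Eventually.of_forall fun x => hsum_bdd F m x)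
  have hH2int : Integrable (fun x => hsum μ T F m x ^ 2) μ := by
    refine Integrable.of_bound (hH.pow_const 2).aestronglyMeasurable ((m : ℝ) ^ 2)
      (Eventually.of_forall fun x => ?_)
    rw [Real.norm_eq_abs, abs_pow]
    exact pow_le_pow_left₀ (abs_nonneg _) (hsum_bdd F m x) 2
  -- the integral of the ergodic sum over `A`
  have h1 : |∫ x in A, hsum μ T F m x ∂μ| ≤ m * ε := by
    have hb : ∫ x, |hsum μ T F m x| ∂μ ≤ m * ε := by
      have h2 : ∀ x, |hsum μ T F m x| ≤ (hsum μ T F m x ^ 2 / (m * ε) + m * ε) / 2 := by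
        intro x
        have ht : 0 < m * ε := by positivity
        rw [← sq_abs (hsum μ T F m x)]
        set y := |hsum μ T F m x|
        have : y ^ 2 / (m * ε) + m * ε - 2 * y = (y - m * ε) ^ 2 / (m * ε) := by
          field_simp
          ring
        have h3 : 0 ≤ (y - m * ε) ^ 2 / (m * ε) := by positivity
        linarith
      have h3 : ∫ x, |hsum μ T F m x| ∂μ ≤
          ∫ x, (hsum μ T F m x ^ 2 / (m * ε) + m * ε) / 2 ∂μ :=
        integral_mono hHint.abs (((hH2int.div_const _).add (integrable_const _)).div_const _) h2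
      refine h3.trans ?_
      rw [integral_div, integral_add (hH2int.div_const _) (integrable_const _), integral_div,
        hsum_sq_integral hT hF]
      simp only [integral_const, probReal_univ, one_smul, smul_eq_mul]
      have ht : 0 < m * ε := by positivity
      have : W μ T F m / (m * ε) ≤ m * ε := by
        rw [div_le_iff₀ ht]
        calc W μ T F m ≤ (m * ε) ^ 2 := hW
          _ = m * ε * (m * ε) := by ring
      linarith
    calc |∫ x in A, hsum μ T F m x ∂μ| ≤ ∫ x in A, |hsum μ T F m x| ∂μ := abs_integral_le_integral_abs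
      _ ≤ ∫ x, |hsum μ T F m x| ∂μ :=
        setIntegral_le_integral hHint.abs (Eventually.of_forall fun x => abs_nonneg _)
      _ ≤ m * ε := hb
  have h2 : ∫ x in A, hsum μ T F m x ∂μ =
      ∑ i ∈ Finset.range m, (μ.real (A ∩ T^[i] ⁻¹' F) - μ.real A * μ.real F) := by
    unfold hsum
    have hi : ∀ i ∈ Finset.range m, Integrable
        (fun x => (T^[i] ⁻¹' F).indicator (1 : X → ℝ) x - μ.real F) (μ.restrict A) := fun i _ =>
      ((integrable_ind (meas_pre hT hF i)).sub (integrable_const _)).integrableOn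
    rw [integral_finset_sum _ hi]
    refine Finset.sum_congr rfl fun i _ => ?_
    rw [integral_sub (integrable_ind (meas_pre hT hF i)).integrableOn (integrable_const _),
      setIntegral_const, smul_eq_mul]
    congr 1
    rw [integral_indicator_one (meas_pre hT hF i)]
    rw [measureReal_restrict_apply (meas_pre hT hF i), inter_comm]
  have h3 : ∀ i ∈ Finset.range m, |μ.real (F ∩ A) - μ.real (A ∩ T^[i] ⁻¹' F)| ≤ η := by
    intro i hi
    have e1 : μ.real (F ∩ A) = μ.real (T^[i] ⁻¹' F ∩ T^[i] ⁻¹' A) := by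
      rw [← preimage_inter, real_preimage hT (hF.inter hA)]
    have hs := hη i (Finset.mem_range.1 hi).le
    have e2 : μ.real (T^[i] ⁻¹' F ∩ T^[i] ⁻¹' A) ≤ μ.real (A ∩ T^[i] ⁻¹' F) +
        μ.real (symmDiff A (T^[i] ⁻¹' A)) := by
      refine (measureReal_mono ?_ (measure_ne_top _ _)).trans (measureReal_union_le _ _)
      rintro x ⟨hx1, hx2⟩
      by_cases hx : x ∈ A
      · exact Or.inl ⟨hx, hx1⟩
      · exact Or.inr (Or.inr ⟨hx2, hx⟩)
    have e3 : μ.real (A ∩ T^[i] ⁻¹' F) ≤ μ.real (T^[i] ⁻¹' F ∩ T^[i] ⁻¹' A) +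
        μ.real (symmDiff A (T^[i] ⁻¹' A)) := by
      refine (measureReal_mono ?_ (measure_ne_top _ _)).trans (measureReal_union_le _ _)
      rintro x ⟨hx1, hx2⟩
      by_cases hx : x ∈ T^[i] ⁻¹' A
      · exact Or.inl ⟨hx2, hx⟩
      · exact Or.inr (Or.inl ⟨hx1, hx⟩)
    rw [e1, abs_le]
    constructor <;> linarith
  have h4 : m * (μ.real (F ∩ A) - μ.real A * μ.real F) =
      ∑ i ∈ Finset.range m, (μ.real (F ∩ A) - μ.real (A ∩ T^[i] ⁻¹' F)) +
      ∫ x in A, hsum μ T F m x ∂μ := by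
    rw [h2, ← Finset.sum_add_distrib]
    simp only [sub_add_sub_cancel, Finset.sum_const, Finset.card_range, nsmul_eq_mul]
  have h5 : |∑ i ∈ Finset.range m, (μ.real (F ∩ A) - μ.real (A ∩ T^[i] ⁻¹' F))| ≤ m * η := by
    refine (Finset.abs_sum_le_sum_abs _ _).trans ((Finset.sum_le_sum h3).trans ?_)
    simp
  have h6 : m * |μ.real (F ∩ A) - μ.real A * μ.real F| ≤ m * (η + ε) := by
    rw [← abs_of_pos hm', ← abs_mul, abs_of_pos hm', h4]
    refine (abs_add_le _ _).trans ?_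
    linarith
  exact le_of_mul_le_mul_left h6 hm'

/-- Bound for the double sum. -/
lemma W_le (hT : MeasurePreserving T μ μ) {F : Set X} (hF : MeasurableSet F) {m D : ℕ} {δ : ℝ}
    (hδ : 0 ≤ δ)
    (h : ∀ d, D ≤ d → d < m → μ.real (F ∩ T^[d] ⁻¹' F) - μ.real F ^ 2 ≤ δ) :
    W μ T F m ≤ m * (m * δ + 2 * D) := by
  have key : ∀ i j : ℕ, μ.real (T^[i] ⁻¹' F ∩ T^[j] ⁻¹' F) =
      μ.real (F ∩ T^[(j - i) + (i - j)] ⁻¹' F) := by
    intro i j
    rcases le_total i j with hij | hij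
    · have e : T^[i] ⁻¹' F ∩ T^[j] ⁻¹' F = T^[i] ⁻¹' (F ∩ T^[j - i] ⁻¹' F) := by
        rw [preimage_inter, pre_pre, Nat.sub_add_cancel hij]
      rw [e, real_preimage hT (hF.inter (meas_pre hT hF _))]
      congr 2
      rw [Nat.sub_eq_zero_of_le hij, add_zero]
    · have e : T^[i] ⁻¹' F ∩ T^[j] ⁻¹' F = T^[j] ⁻¹' (F ∩ T^[i - j] ⁻¹' F) := by
        rw [preimage_inter, pre_pre, Nat.sub_add_cancel hij, inter_comm]
      rw [e, real_preimage hT (hF.inter (meas_pre hT hF _))]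
      congr 2
      rw [Nat.sub_eq_zero_of_le hij, zero_add]
  unfold W
  have hrow : ∀ i ∈ Finset.range m, ∑ j ∈ Finset.range m,
      (μ.real (T^[i] ⁻¹' F ∩ T^[j] ⁻¹' F) - μ.real F ^ 2) ≤ m * δ + 2 * D := by
    intro i hi
    have hi' := Finset.mem_range.1 hi
    have hterm : ∀ j ∈ Finset.range m, μ.real (T^[i] ⁻¹' F ∩ T^[j] ⁻¹' F) - μ.real F ^ 2 ≤
        δ + if j ∈ Finset.Ico (i - D) (i + D) then 1 else 0 := by
      intro j hj
      have hj' := Finset.mem_range.1 hj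
      rw [key]
      split_ifs with hjD
      · have h1 : μ.real (F ∩ T^[(j - i) + (i - j)] ⁻¹' F) ≤ 1 := measureReal_le_one
        have h2 : 0 ≤ μ.real F ^ 2 := sq_nonneg _
        linarith
      · rw [add_zero]
        apply h
        · rw [Finset.mem_Ico] at hjD
          omega
        · omega
    refine (Finset.sum_le_sum hterm).trans ?_
    rw [Finset.sum_add_distrib, Finset.sum_const, Finset.card_range, nsmul_eq_mul]
    refine add_le_add_right ?_ _
    rw [Finset.sum_ite_mem]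
    rw [Finset.sum_const, nsmul_eq_mul, mul_one]
    have h3 : (Finset.range m ∩ Finset.Ico (i - D) (i + D)).card ≤ 2 * D := by
      refine (Finset.card_le_card Finset.inter_subset_right).trans ?_
      rw [Nat.card_Ico]
      omega
    exact_mod_cast h3
  refine (Finset.sum_le_sum hrow).trans ?_
  rw [Finset.sum_const, Finset.card_range, nsmul_eq_mul]

/-- Choice of the averaging length. -/
lemma exists_len {ε : ℝ} (hε : 0 < ε) (D : ℕ) :
    ∃ m : ℕ, 0 < m ∧ (m : ℝ) * (m * (ε ^ 2 / 2) + 2 * D) ≤ (m * ε) ^ 2 := by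
  obtain ⟨m, hm⟩ := exists_nat_ge (4 * (D : ℝ) / ε ^ 2)
  refine ⟨m + 1, Nat.succ_pos _, ?_⟩
  have h1 : 4 * (D : ℝ) ≤ m * ε ^ 2 := (div_le_iff₀ (by positivity)).1 hm
  push_cast
  have h2 : 2 * (D : ℝ) ≤ (m + 1) * (ε ^ 2 / 2) := by
    have : 0 < ε ^ 2 := by positivity
    nlinarith
  have h3 : ((m : ℝ) + 1) * ε ^ 2 = (m + 1) * (ε ^ 2 / 2) + (m + 1) * (ε ^ 2 / 2) := by ring
  calc ((m : ℝ) + 1) * ((m + 1) * (ε ^ 2 / 2) + 2 * D)
      ≤ (m + 1) * ((m + 1) * (ε ^ 2 / 2) + (m + 1) * (ε ^ 2 / 2)) := by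
        apply mul_le_mul_of_nonneg_left _ (by positivity)
        linarith
    _ = ((m + 1) * ε) ^ 2 := by ring

/-- For all `n` the ergodic sums of `E ∩ T^(-n) E` have small variance, at a length bounded
independently of `n`. -/
lemma uniform_variance (hM : Mix μ T) (hT : MeasurePreserving T μ μ) {E : Set X}
    (hE : MeasurableSet E) {ε : ℝ} (hε : 0 < ε) :
    ∃ K : ℕ, ∀ n : ℕ, ∃ m : ℕ, 0 < m ∧ m ≤ K ∧
      W μ T (E ∩ T^[n] ⁻¹' E) m ≤ (m * ε) ^ 2 := by
  have hFm : ∀ n : ℕ, MeasurableSet (E ∩ T^[n] ⁻¹' E) := fun n => hE.inter (meas_pre hT hE n)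
  have hswap : ∀ n d : ℕ, (E ∩ T^[n] ⁻¹' E) ∩ T^[d] ⁻¹' (E ∩ T^[n] ⁻¹' E) =
      (E ∩ T^[d] ⁻¹' E) ∩ T^[n] ⁻¹' (E ∩ T^[d] ⁻¹' E) := by
    intro n d
    rw [preimage_inter, preimage_inter, pre_pre, pre_pre, add_comm d n]
    ext x
    simp only [mem_inter_iff]
    tauto
  set e := μ.real E with he
  set δ := ε ^ 2 / 10 with hδ
  have hδ0 : 0 < δ := by positivity
  have hmix := hM E E hE hE
  have h1 : ∀ᶠ d in atTop, |μ.real (E ∩ T^[d] ⁻¹' E) - e * e| < δ := by
    have := (Metric.tendsto_nhds.1 hmix) δ hδ0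
    simpa [Real.dist_eq] using this
  obtain ⟨D, hD⟩ := eventually_atTop.1 h1
  obtain ⟨m, hm0, hm⟩ := exists_len hε D
  have h2 : ∀ᶠ n in atTop, ∀ d ∈ Finset.range m,
      |μ.real ((E ∩ T^[d] ⁻¹' E) ∩ T^[n] ⁻¹' (E ∩ T^[d] ⁻¹' E)) -
        μ.real (E ∩ T^[d] ⁻¹' E) * μ.real (E ∩ T^[d] ⁻¹' E)| < δ := by
    rw [Filter.eventually_all_finset]
    intro d _
    have := (Metric.tendsto_nhds.1 (hM _ _ (hFm d) (hFm d))) δ hδ0
    simpa [Real.dist_eq] using this
  obtain ⟨N, hN⟩ := eventually_atTop.1 h2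
  -- large `n`
  have hlarge : ∀ n, max N D ≤ n → W μ T (E ∩ T^[n] ⁻¹' E) m ≤ (m * ε) ^ 2 := by
    intro n hn
    refine (W_le (δ := ε ^ 2 / 2) (D := D) hT (hFm n) (by positivity) ?_).trans hm
    intro d hd1 hd2
    rw [hswap]
    have a1 := abs_lt.1 (hD n ((le_max_right _ _).trans hn))
    have a2 := abs_lt.1 (hD d hd1)
    have a3 := abs_lt.1 (hN n ((le_max_left _ _).trans hn) d (Finset.mem_range.2 hd2))
    have b1 : 0 ≤ μ.real (E ∩ T^[d] ⁻¹' E) := measureReal_nonneg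
    have b2 : μ.real (E ∩ T^[d] ⁻¹' E) ≤ 1 := measureReal_le_one
    have b3 : 0 ≤ μ.real (E ∩ T^[n] ⁻¹' E) := measureReal_nonneg
    have b4 : μ.real (E ∩ T^[n] ⁻¹' E) ≤ 1 := measureReal_le_one
    have c1 : μ.real (E ∩ T^[d] ⁻¹' E) * μ.real (E ∩ T^[d] ⁻¹' E) - μ.real (E ∩ T^[n] ⁻¹' E) ^ 2
        ≤ 4 * δ := by
      have : μ.real (E ∩ T^[d] ⁻¹' E) * μ.real (E ∩ T^[d] ⁻¹' E) - μ.real (E ∩ T^[n] ⁻¹' E) ^ 2
        = (μ.real (E ∩ T^[d] ⁻¹' E) - μ.real (E ∩ T^[n] ⁻¹' E)) *
          (μ.real (E ∩ T^[d] ⁻¹' E) + μ.real (E ∩ T^[n] ⁻¹' E)) := by ring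
      rw [this]
      have c2 : μ.real (E ∩ T^[d] ⁻¹' E) - μ.real (E ∩ T^[n] ⁻¹' E) ≤ 2 * δ := by linarith
      nlinarith
    rw [hδ] at *
    linarith
  -- small `n`
  have hsmall : ∀ n, ∃ m', 0 < m' ∧ W μ T (E ∩ T^[n] ⁻¹' E) m' ≤ (m' * ε) ^ 2 := by
    intro n
    have := (Metric.tendsto_nhds.1 (hM _ _ (hFm n) (hFm n))) (ε ^ 2 / 2) (by positivity)
    obtain ⟨D', hD'⟩ := eventually_atTop.1 this
    obtain ⟨m', hm0', hm'⟩ := exists_len hε D'
    refine ⟨m', hm0', (W_le (δ := ε ^ 2 / 2) (D := D') hT (hFm n) (by positivity) ?_).trans hm'⟩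
    intro d hd1 hd2
    have := hD' d hd1
    rw [Real.dist_eq] at this
    have := (abs_lt.1 this).2
    rw [sq]
    linarith
  choose m' hm0' hm' using hsmall
  refine ⟨max m ((Finset.range (max N D)).sup m'), fun n => ?_⟩
  by_cases hn : max N D ≤ n
  · exact ⟨m, hm0, le_max_left _ _, hlarge n hn⟩
  · refine ⟨m' n, hm0' n, ?_, hm' n⟩
    refine le_trans ?_ (le_max_right _ _)
    exact Finset.le_sup (f := m') (Finset.mem_range.2 (not_le.1 hn))

end Pool.Agent.D0H27.OR
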